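import Pool.Agent.Lib.HSC35.Uniq

/-! From the curvature of the Chern connection back to the coordinate formula. -/

noncomputable section

namespace Pool.Agent.Lib.HSC35

open scoped Manifold ContDiff Topology ComplexConjugate
open Set Filter Bundle Complex Pool.Agent.Lib.MP_40b2af_gt

variable {n : ℕ} {M : Type} [TopologicalSpace M] [ChartedSpace (V n) M]
  [IsManifold 𝓘(ℝ, V n) ∞ M] [IsManifold 𝓘(ℂ, V n) ω M] {g : RMetric (V n) M}

omit [IsManifold 𝓘(ℂ, V n) ω M] in
theorem herm_back (hg : Hermitian g) : IsHermitian g := fun x u v =>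
  (gB_self g x (I • u) (I • v)).trans ((hg x u v).trans (gB_self g x u v).symm)

theorem flat_back (hg : IsHermitian g) (h : ChernFlat g) : Flat (cov g) := by
  intro X Y Z x hX hY hZ
  have hm := mem_chart_target (V n) x
  have h1 : ∀ a b c : V n, Kv (coef g x) false (chartAt (V n) x x) a b c = 0 := fun a b c =>
    (hg.good x).gm_ext (b := false) hm fun w => by
      have := (hg.good x).Rm_sum hm a b c w
      simp only [h x, zero_mul, Finset.sum_const_zero, Rm, neg_eq_zero] at this
      rw [this, (gm_lin1 _ _ _ _).map_zero]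
  rw [curv_eq hg hX hY hZ, h1, h1]
  exact sub_self (0 : V n)

theorem const_back (hg : IsHermitian g) (hc : ConstHSC g (cov g) 0) : ConstChernHSC g 0 := by
  intro x u
  have hm := mem_chart_target (V n) x
  obtain ⟨U, hU, hu⟩ := exists_field (n := n) x u
  obtain ⟨ρ, h2⟩ : ∃ ρ : ℝ, Rm (coef g x) (chartAt (V n) x x) u u (star u) (star u) = ρ := by
    have := (hg.good x).Rm_conj (u := u) (k := u) (z := star u) (l := star u) hm
    rw [star_star] at this
    exact ⟨_, (conj_eq_iff_re.1 this.symm).symm⟩
  have h3 : ∀ b, (show V n from pick U b x) = (bif b then I else 1) • u := fun b => by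
    cases b
    · simp [pick, hu]
    · rw [← hu]; rfl
  have h4 : ∀ a b d e, g.inner x (curv (cov g) (pick U a) (pick U b) (pick U d) x) (pick U e x)
      = 2 * (((bif a then I else 1) * (bif d then I else 1) * conj (bif b then I else 1)
          * conj (bif e then I else 1) - (bif b then I else 1) * (bif d then I else 1)
          * conj (bif a then I else 1) * conj (bif e then I else 1)) * (ρ : ℂ)).re :=
    fun a b d e => by
    refine (r4 hg (hU.pick a) (hU.pick b) (hU.pick d) (pick U e x)).trans ?_
    rw [sub_mul, ← h2, ← Rm_smul hg, ← Rm_smul hg, ← h3, ← h3, ← h3, ← h3]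
  have h5 := hc U x hU
  simp only [hol, h4] at h5
  have h6 : ρ = 0 := by
    simp [Complex.ext_iff] at h5
    linarith
  rw [(hg.good x).Rm_sum hm, h6] at h2
  simpa using h2

/-- the statement with connections implies the statement in coordinates -/
theorem back (hg : Hermitian g)
    (h : ∀ D : Conn (V n) M, IsChern g D → ConstHSC g D 0 ∧ ¬ Flat D) :
    IsHermitian g ∧ ConstChernHSC g 0 ∧ ¬ ChernFlat g :=
  ⟨herm_back hg, const_back (herm_back hg) (h _ (isChern (herm_back hg))).1,
    fun hf => (h _ (isChern (herm_back hg))).2 (flat_back (herm_back hg) hf)⟩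

end Pool.Agent.Lib.HSC35
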