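import Pool.Agent.Lib.MP_40b2af_gt.Defs

/-! The Chern connection as a covariant derivative on the tangent bundle, and its curvature. -/

noncomputable section

namespace Pool.Agent.Lib.HSC35

open scoped Manifold ContDiff
open Complex Pool.Agent.Lib.MP_40b2af_gt

variable {E : Type} [NormedAddCommGroup E] [NormedSpace ℝ E] [NormedSpace ℂ E] [CompleteSpace E]
  [FiniteDimensional ℝ E] {M : Type} [TopologicalSpace M] [ChartedSpace E M]

variable (E M) in
/-- vector fields -/
abbrev Field : Type := ∀ x : M, TangentSpace 𝓘(ℝ, E) x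

/-- the complex structure: multiplication by i in the holomorphic chart at the point -/
def J {x : M} (u : TangentSpace 𝓘(ℝ, E) x) : TangentSpace 𝓘(ℝ, E) x :=
  (I • (show E from u) : E)

variable [IsManifold 𝓘(ℝ, E) ∞ M]

variable (E M) in
/-- connections on the tangent bundle -/
abbrev Conn : Type := CovariantDerivative 𝓘(ℝ, E) E (TangentSpace 𝓘(ℝ, E) : M → Type)

/-- the vector field is smooth at the point -/
def SmoothAt (X : Field E M) (x : M) : Prop :=
  ContMDiffAt 𝓘(ℝ, E) (𝓘(ℝ, E)).tangent ∞
    (fun y => (⟨y, X y⟩ : TangentBundle 𝓘(ℝ, E) M)) x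

/-- the covariant derivative of Y along X -/
def nabla (D : Conn E M) (X Y : Field E M) : Field E M := fun x => D Y x (X x)

/-- g(Ju, Jv) = g(u, v) -/
def Hermitian (g : RMetric E M) : Prop := ∀ x u v, g.inner x (J u) (J v) = g.inner x u v

/-- a smooth connection that preserves g and J and whose torsion has no (1,1)-part -/
structure IsChern (g : RMetric E M) (D : Conn E M) : Prop where
  smooth : ∀ X Y x, SmoothAt X x → SmoothAt Y x → SmoothAt (nabla D X Y) x
  metric : ∀ X Y Z x, SmoothAt Y x → SmoothAt Z x →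
    mvfderiv 𝓘(ℝ, E) (fun y => g.inner y (Y y) (Z y)) x (X x)
      = g.inner x (nabla D X Y x) (Z x) + g.inner x (Y x) (nabla D X Z x)
  complex : ∀ X Y x, SmoothAt Y x → nabla D X (fun y => J (Y y)) x = J (nabla D X Y x)
  torsion : ∀ x u v, D.torsion x (J u) (J v) = -D.torsion x u v

/-- the curvature R(X, Y) Z -/
def curv (D : Conn E M) (X Y Z : Field E M) : Field E M := fun x =>
  nabla D X (nabla D Y Z) x - nabla D Y (nabla D X Z) x
    - nabla D (VectorField.mlieBracket 𝓘(ℝ, E) X Y) Z x

/-- U or JU -/
def pick (U : Field E M) (b : Bool) : Field E M := fun y => bif b then J (U y) else U y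

/-- g(R(X, Xbar) X, Xbar) for X = U - i JU, extended complex multilinearly -/
def hol (g : RMetric E M) (D : Conn E M) (U : Field E M) (x : M) : ℂ :=
  ∑ a : Bool, ∑ b : Bool, ∑ c : Bool, ∑ d : Bool,
    (bif a then -I else 1) * (bif b then I else 1) * (bif c then -I else 1) * (bif d then I else 1)
      * (g.inner x (curv D (pick U a) (pick U b) (pick U c) x) (pick U d x) : ℝ)

/-- constant holomorphic sectional curvature c; the squared norm of X = U - i JU is 2 g(U, U) -/
def ConstHSC (g : RMetric E M) (D : Conn E M) (c : ℝ) : Prop :=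
  ∀ U x, SmoothAt U x → hol g D U x = c * (2 * g.inner x (U x) (U x) : ℝ) ^ 2

/-- vanishing curvature -/
def Flat (D : Conn E M) : Prop :=
  ∀ X Y Z x, SmoothAt X x → SmoothAt Y x → SmoothAt Z x → curv D X Y Z x = 0

end Pool.Agent.Lib.HSC35
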