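import Pool.Agent.Lib.HSC35.Rep
import Pool.Agent.Lib.HSC35.Defs

/-! The Chern connection of a Hermitian metric as a covariant derivative. -/

noncomputable section

namespace Pool.Agent.Lib.HSC35

open scoped Manifold ContDiff Topology ComplexConjugate
open Set Filter Bundle Complex Pool.Agent.Lib.MP_40b2af_gt

variable {n : ℕ} {M : Type} [TopologicalSpace M] [ChartedSpace (V n) M]
  [IsManifold 𝓘(ℝ, V n) ∞ M]

/-- the connection, computed in the chart at the point -/
def covF (g : RMetric (V n) M) (X : M → V n) (x : M) : V n →L[ℝ] V n :=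
  nab (Gb (coef g x)) (rep x X) (chartAt (V n) x x)

theorem covF_add (g : RMetric (V n) M) {X Y : M → V n} {x : M}
    (hX : DifferentiableAt ℝ (rep x X) (chartAt (V n) x x))
    (hY : DifferentiableAt ℝ (rep x Y) (chartAt (V n) x x)) :
    covF g (X + Y) x = covF g X x + covF g Y x := by
  have h1 : rep x (X + Y) =ᶠ[𝓝 (chartAt (V n) x x)] rep x X + rep x Y := by
    filter_upwards [nhds_target x] with z hz
    exact rep_eq hz (by rw [Pi.add_apply, map_add, push_rep X hz, push_rep Y hz]; rfl)
  rw [covF, nab_congr h1, nab, fderiv_add hX hY, Pi.add_apply, map_add, covF, covF, nab, nab]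
  abel

theorem covF_smul (g : RMetric (V n) M) {X : M → V n} {f : M → ℝ} {x : M}
    (hX : DifferentiableAt ℝ (rep x X) (chartAt (V n) x x))
    (hf : MDifferentiableAt 𝓘(ℝ, V n) 𝓘(ℝ, ℝ) f x) (a : V n) :
    covF g (f • X) x a = f x • covF g X x a + mvfderiv 𝓘(ℝ, V n) f x a • X x := by
  have h1 : rep x (f • X) =ᶠ[𝓝 (chartAt (V n) x x)]
      (fun z => f ((chartAt (V n) x).symm z)) • rep x X := by
    filter_upwards [nhds_target x] with z hz
    exact rep_eq hz (by rw [Pi.smul_apply', map_smul, push_rep X hz]; rfl)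
  rw [covF, nab_congr h1, nab, fderiv_smul (fun_diff.1 hf) hX, mvf_eq hf, covF, nab]
  simp only [Pi.smul_apply', (chartAt (V n) x).left_inv (mem_chart_source (V n) x), rep_self,
    map_smul, add_apply, smul_apply, ContinuousLinearMap.smulRight_apply, smul_add]
  abel

/-- the Chern connection -/
def cov (g : RMetric (V n) M) : Conn (V n) M where
  toFun := covF g
  isCovariantDerivativeOnUniv :=
    { add := fun {X Y x} hX hY _ =>
        covF_add g ((mdiff_iff X (mem_chart_source _ x)).1 hX)
          ((mdiff_iff Y (mem_chart_source _ x)).1 hY)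
      leibniz := fun {X f x} hX hf _ => ContinuousLinearMap.ext fun a =>
        covF_smul g ((mdiff_iff X (mem_chart_source _ x)).1 hX) hf a }

theorem SmoothAt.rep {X : Field (V n) M} {x : M} (h : SmoothAt X x) :
    ContDiffAt ℝ ∞ (rep x X) (chartAt (V n) x x) := (smooth_iff x X).1 h

/-- the metric at a point as a bilinear form on the model space -/
def gI (g : RMetric (V n) M) (x : M) : V n →L[ℝ] V n →L[ℝ] ℝ := g.inner x

theorem gB_self (g : RMetric (V n) M) (x : M) (u v : V n) :
    gB g x (chartAt (V n) x x) u v = gI g x u v := by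
  change gI g _ (pushL x _ u) (pushL x _ v) = _
  rw [push_self, push_self, (chartAt (V n) x).left_inv (mem_chart_source _ x)]

theorem exists_field (x : M) (u : TangentSpace 𝓘(ℝ, V n) x) :
    ∃ X : Field (V n) M, SmoothAt X x ∧ X x = u :=
  ⟨FiberBundle.extend (V n) u, FiberBundle.contMDiffAt_extend (k := ∞) 𝓘(ℝ, V n) (V n) u,
    FiberBundle.extend_apply_self _ _⟩

theorem tor_eq (g : RMetric (V n) M) (x : M) (u v : V n) :
    (cov g).torsion x u v = Gb (coef g x) (chartAt (V n) x x) v u
      - Gb (coef g x) (chartAt (V n) x x) u v := by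
  obtain ⟨X, hX, e1⟩ := exists_field (n := n) x u
  obtain ⟨Y, hY, e2⟩ := exists_field (n := n) x v
  have h1 := (cov g).torsion_apply (hX.mdifferentiableAt (by simp))
    (hY.mdifferentiableAt (by simp))
  rw [← e1, ← e2]
  refine h1.trans ?_
  have h2 := bracket_eq (E := V n) X Y x
  change covF g Y x (X x) - covF g X x (Y x)
    - (show V n from VectorField.mlieBracket 𝓘(ℝ, V n) X Y x) = _
  rw [h2]
  simp only [covF, nab, rep_self, add_apply]
  abel

variable [IsManifold 𝓘(ℂ, V n) ω M] {g : RMetric (V n) M}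

omit [IsManifold 𝓘(ℝ, V n) ∞ M] in
theorem push_I {p : M} {z : V n} (hz : z ∈ (chartAt (V n) p).target) (u : V n) :
    pushL p z (I • u) = I • pushL p z u := by
  have h1 := ((mdifferentiable_chart (I := 𝓘(ℂ, V n)) p).mdifferentiableAt_symm hz).hasMFDerivAt
  obtain ⟨L, hL⟩ : ∃ L : V n →L[ℂ] V n,
    HasMFDerivAt 𝓘(ℂ, V n) 𝓘(ℂ, V n) (chartAt (V n) p).symm z L := ⟨_, h1⟩
  have h2 : HasMFDerivAt 𝓘(ℝ, V n) 𝓘(ℝ, V n) (chartAt (V n) p).symm z (L.restrictScalars ℝ) :=
    ⟨hL.1, hL.2.restrictScalars ℝ⟩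
  have h3 : pushL p z = L.restrictScalars ℝ := h2.mfderiv
  rw [h3]; exact L.map_smul I u

theorem rep_J (X : M → V n) (x : M) :
    rep x (fun y => I • X y) =ᶠ[𝓝 (chartAt (V n) x x)] fun z => I • rep x X z := by
  filter_upwards [nhds_target x] with z hz
  exact rep_eq hz (by rw [push_I hz, push_rep X hz])

theorem SmoothAt.J {X : Field (V n) M} {x : M} (h : SmoothAt X x) : SmoothAt (fun y => J (X y)) x :=
  (smooth_iff x (fun y => I • (show V n from X y))).2
    ((h.rep.const_smul I).congr_of_eventuallyEq (rep_J X x))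

theorem cov_chg (hg : IsHermitian g) {y p : M} (hy : y ∈ (chartAt (V n) p).source) {X : M → V n}
    (hX : DifferentiableAt ℝ (rep p X) (chartAt (V n) p y)) (a : V n) :
    fderiv ℝ (trans (V n) y p) (chartAt (V n) y y) (covF g X y a)
      = nab (Gb (coef g p)) (rep p X) (chartAt (V n) p y)
        (fderiv ℝ (trans (V n) y p) (chartAt (V n) y y) a) := by
  have hc := mem_transDom (E := V n) hy
  have hn := (isOpen_transDom (E := V n) y p).mem_nhds hc
  have hX' := (mdiff_iff X (mem_chart_source _ y)).1 ((mdiff_iff X hy).2 hX)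
  have hs := (contDiffOn_trans (E := V n) y p).contDiffAt hn
  have d1 := (hs.differentiableAt (by simp)).hasFDerivAt
  have d2 := ((hs.fderiv_right (m := ∞) (by simp)).differentiableAt (by simp)).hasFDerivAt
  rw [← trans_chart p y] at hX
  have h1 := hX.hasFDerivAt.comp _ d1
  have h2 := d2.clm_apply hX'.hasFDerivAt
  have h3 : rep p X ∘ trans (V n) y p =ᶠ[𝓝 (chartAt (V n) y y)]
      fun z => fderiv ℝ (trans (V n) y p) z (rep y X z) := by
    filter_upwards [hn] with z hz using rep_trans X hz
  have h4 := congrArg (fun L : V n →L[ℝ] V n => L a) (h1.unique (h2.congr_of_eventuallyEq h3))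
  have h5 := Gb_chg (hg.chg y p) hc (X y) a
  simp only [trans_chart, rep_self, ContinuousLinearMap.comp_apply, add_apply,
    ContinuousLinearMap.flip_apply] at h4 h5
  simp only [covF, nab, add_apply, map_add, rep_self, h4, h5, rep_at X hy]
  abel

theorem rep_nabla (hg : IsHermitian g) (X : M → V n) {Y : M → V n} {x : M}
    (hY : ContDiffAt ℝ ∞ (rep x Y) (chartAt (V n) x x)) :
    rep x (fun y => covF g Y y (X y)) =ᶠ[𝓝 (chartAt (V n) x x)]
      fun z => nab (Gb (coef g x)) (rep x Y) z (rep x X z) := by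
  filter_upwards [nhds_target x, (hY.of_le (m := 1) (by simp)).eventually (by simp)] with z hz h1
  have hy := (chartAt (V n) x).map_target hz
  have h2 := h1.differentiableAt (by simp)
  rw [← (chartAt (V n) x).right_inv hz] at h2 ⊢
  rw [rep_at _ hy, rep_at X hy, cov_chg hg hy h2]

theorem Gb_at (hg : IsHermitian g) (x : M) :
    ContDiffAt ℝ ∞ (Gb (coef g x)) (chartAt (V n) x x) :=
  (Gb_smooth (hg.good x)).contDiffAt (nhds_target x)

theorem gB_re (hg : IsHermitian g) {x : M} {z : V n} (hz : z ∈ (chartAt (V n) x).target)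
    (u v : V n) : gB g x z u v = 2 * (gm (coef g x) false z u (star v)).re := by
  rw [hg.gm hz, star_star]
  simp [hF]
  ring

theorem cov_metric (hg : IsHermitian g) {Y Z : M → V n} {x : M}
    (hY : ContDiffAt ℝ ∞ (rep x Y) (chartAt (V n) x x))
    (hZ : ContDiffAt ℝ ∞ (rep x Z) (chartAt (V n) x x)) (a : V n) :
    mvfderiv 𝓘(ℝ, V n) (fun y => gI g y (Y y) (Z y)) x a
      = gI g x (covF g Y x a) (Z x) + gI g x (Y x) (covF g Z x a) := by
  have hc := mem_chart_target (V n) x
  have hB : ContDiffOn ℝ ∞ (gB g x) (chartAt (V n) x).target :=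
    contDiffOn_clm_apply.2 fun u => contDiffOn_clm_apply.2 fun v => contDiffOn_gval g x u v
  have d0 := ((hB.contDiffAt (nhds_target x)).differentiableAt (by simp)).hasFDerivAt
  have d1 := (hY.differentiableAt (by simp)).hasFDerivAt
  have d2 := (hZ.differentiableAt (by simp)).hasFDerivAt
  have h1 : (fun z => gI g ((chartAt (V n) x).symm z) (Y ((chartAt (V n) x).symm z))
      (Z ((chartAt (V n) x).symm z))) =ᶠ[𝓝 (chartAt (V n) x x)]
      fun z => gB g x z (rep x Y z) (rep x Z z) := by
    filter_upwards [nhds_target x] with z hz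
    rw [← push_rep Y hz, ← push_rep Z hz]; rfl
  have h2 := ((d0.clm_apply d1).clm_apply d2).congr_of_eventuallyEq h1
  have h3 : HasFDerivAt (fun z => gB g x z (Y x) (Z x)) _ (chartAt (V n) x x) :=
    (d0.clm_apply (hasFDerivAt_const (Y x) _)).clm_apply (hasFDerivAt_const (Z x) _)
  have d3 := (((hg.good x).gm_sm false (Y x) (star (Z x))).dAt (hg.good x).isOpen hc).hasFDerivAt
  have h4 : (fun z => gB g x z (Y x) (Z x)) =ᶠ[𝓝 (chartAt (V n) x x)]
      fun z => 2 * reCLM (gm (coef g x) false z (Y x) (star (Z x))) := by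
    filter_upwards [nhds_target x] with z hz using gB_re hg hz _ _
  have h5 := congrArg (fun L : V n →L[ℝ] ℝ => L a) (h3.unique
    (((reCLM.hasFDerivAt.comp _ d3).const_mul 2).congr_of_eventuallyEq h4))
  simp only [ContinuousLinearMap.comp_apply, smul_apply, ContinuousLinearMap.flip_apply,
    ContinuousLinearMap.comp_zero, zero_add, fd_gm (hg.good x) hc, reCLM_apply, add_re,
    smul_eq_mul, mul_add, ← gB_re hg hc, gB_self] at h5
  rw [mvf_eq (fun_diff.2 h2.differentiableAt), h2.fderiv]
  simp only [ContinuousLinearMap.comp_apply, add_apply, ContinuousLinearMap.flip_apply, rep_self,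
    gB_self, covF, nab, map_add, h5]
  ring

theorem Gb_I1 (hg : IsHermitian g) (x : M) (u a : V n) :
    Gb (coef g x) (chartAt (V n) x x) (I • u) a = I • Gb (coef g x) (chartAt (V n) x x) u a := by
  have hc := mem_chart_target (V n) x
  rw [Gb_apply (hg.good x) hc, Gb_apply (hg.good x) hc, ((hg.good x).Gm_lin2 hc _ _).2]

theorem Gb_I2 (hg : IsHermitian g) (x : M) (u a : V n) :
    Gb (coef g x) (chartAt (V n) x x) u (I • a) = I • Gb (coef g x) (chartAt (V n) x x) u a := by
  have hc := mem_chart_target (V n) x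
  rw [Gb_apply (hg.good x) hc, Gb_apply (hg.good x) hc, (Gm_lin1 _ _ _ _).2]

theorem cov_J (hg : IsHermitian g) {Y : M → V n} {x : M}
    (hY : ContDiffAt ℝ ∞ (rep x Y) (chartAt (V n) x x)) (a : V n) :
    covF g (fun y => I • Y y) x a = I • covF g Y x a := by
  rw [covF, nab_congr (rep_J Y x), nab, fderiv_fun_const_smul (hY.differentiableAt (by simp)),
    covF, nab]
  simp only [add_apply, smul_apply, Gb_I1 hg, smul_add]

theorem isChern (hg : IsHermitian g) : IsChern g (cov g) where
  smooth X Y x hX hY := (smooth_iff x (fun y => covF g Y y (X y))).2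
    ((nab_smooth (Gb_at hg x) hX.rep hY.rep).congr_of_eventuallyEq (rep_nabla hg X hY.rep))
  metric X _ _ x hY hZ := cov_metric hg hY.rep hZ.rep (X x)
  complex X _ x hY := cov_J hg hY.rep (X x)
  torsion x (u v : V n) := by
    refine (tor_eq g x (I • u) (I • v)).trans (Eq.trans ?_ (congrArg Neg.neg (tor_eq g x u v)).symm)
    change _ = -(Gb (coef g x) (chartAt (V n) x x) v u - Gb (coef g x) (chartAt (V n) x x) u v)
    simp only [Gb_I1 hg, Gb_I2 hg, smul_smul, I_mul_I, neg_smul, one_smul]
    abel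

theorem curv_eq (hg : IsHermitian g) {X Y Z : Field (V n) M} {x : M} (hX : SmoothAt X x)
    (hY : SmoothAt Y x) (hZ : SmoothAt Z x) :
    curv (cov g) X Y Z x
      = Kv (coef g x) false (chartAt (V n) x x) (Y x) (Z x) (star (show V n from X x))
        - Kv (coef g x) false (chartAt (V n) x x) (X x) (Z x) (star (show V n from Y x)) := by
  have h1 := curv_loc (Gb_at hg x) hX.rep hY.rep hZ.rep
  rw [curv_Gb (hg.good x) (mem_chart_target _ x), ← nab_congr (rep_nabla hg Y hZ.rep),
    ← nab_congr (rep_nabla hg X hZ.rep)] at h1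
  simp only [rep_self] at h1
  refine Eq.trans ?_ h1
  rw [← bracket_eq (E := V n) X Y x]
  rfl

end Pool.Agent.Lib.HSC35
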