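import Pool.Agent.Lib.MP_40b2af_gt.Mfd

/-! The Chern connection in one chart, as a field of real bilinear maps. -/

noncomputable section

namespace Pool.Agent.Lib.HSC35

open scoped ContDiff Topology ComplexConjugate
open Set Filter Complex Pool.Agent.Lib.MP_40b2af_gt

section Flat

variable {E : Type} [NormedAddCommGroup E] [NormedSpace ℝ E]

/-- covariant derivative in a chart -/
def nab (Γ : E → E →L[ℝ] E →L[ℝ] E) (X : E → E) (y : E) : E →L[ℝ] E :=
  fderiv ℝ X y + Γ y (X y)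

theorem nab_congr {Γ : E → E →L[ℝ] E →L[ℝ] E} {X X' : E → E} {y : E} (h : X =ᶠ[𝓝 y] X') :
    nab Γ X y = nab Γ X' y := by
  rw [nab, nab, h.fderiv_eq, h.eq_of_nhds]

theorem nab_smooth {Γ : E → E →L[ℝ] E →L[ℝ] E} {X Y : E → E} {y : E} (hΓ : ContDiffAt ℝ ∞ Γ y)
    (hX : ContDiffAt ℝ ∞ X y) (hY : ContDiffAt ℝ ∞ Y y) :
    ContDiffAt ℝ ∞ (fun z => nab Γ Y z (X z)) y :=
  ((hY.fderiv_right (m := ∞) (by simp)).add (hΓ.clm_apply hY)).clm_apply hX

theorem nab_nab {Γ : E → E →L[ℝ] E →L[ℝ] E} {Y Z : E → E} {y : E} (hΓ : ContDiffAt ℝ ∞ Γ y)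
    (hY : ContDiffAt ℝ ∞ Y y) (hZ : ContDiffAt ℝ ∞ Z y) (a : E) :
    nab Γ (fun z => nab Γ Z z (Y z)) y a
      = fderiv ℝ (fderiv ℝ Z) y a (Y y) + fderiv ℝ Γ y a (Z y) (Y y)
        + Γ y (fderiv ℝ Z y a) (Y y) + nab Γ Z y (fderiv ℝ Y y a)
        + Γ y (fderiv ℝ Z y (Y y)) a + Γ y (Γ y (Z y) (Y y)) a := by
  have d1 := ((hZ.fderiv_right (m := ∞) (by simp)).differentiableAt (by simp)).hasFDerivAt
  have d2 := (hΓ.differentiableAt (by simp)).hasFDerivAt
  have d3 := (hZ.differentiableAt (by simp)).hasFDerivAt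
  have d4 := (hY.differentiableAt (by simp)).hasFDerivAt
  have d5 : HasFDerivAt (fun z => nab Γ Z z (Y z)) _ y :=
    (d1.add (d2.clm_apply d3)).clm_apply d4
  rw [nab, d5.fderiv]
  simp [nab]
  abel

theorem curv_loc {Γ : E → E →L[ℝ] E →L[ℝ] E} {X Y Z : E → E} {y : E} (hΓ : ContDiffAt ℝ ∞ Γ y)
    (hX : ContDiffAt ℝ ∞ X y) (hY : ContDiffAt ℝ ∞ Y y) (hZ : ContDiffAt ℝ ∞ Z y) :
    nab Γ (fun z => nab Γ Z z (Y z)) y (X y) - nab Γ (fun z => nab Γ Z z (X z)) y (Y y)
        - nab Γ Z y (fderiv ℝ Y y (X y) - fderiv ℝ X y (Y y))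
      = (fderiv ℝ Γ y (X y) (Z y) (Y y) + Γ y (Γ y (Z y) (Y y)) (X y))
        - (fderiv ℝ Γ y (Y y) (Z y) (X y) + Γ y (Γ y (Z y) (X y)) (Y y)) := by
  have hs : IsSymmSndFDerivAt ℝ Z y := hZ.isSymmSndFDerivAt (by
    rw [minSmoothness_of_isRCLikeNormedField]; exact ENat.LEInfty.out)
  rw [nab_nab hΓ hY hZ, nab_nab hΓ hX hZ, hs (X y) (Y y), map_sub]
  abel

end Flat

variable {n : ℕ} {U U' : Set (V n)} {h h' : Her n} {y : V n}

/-- Christoffel symbols as a real bilinear map (section, direction) -/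
def Gb (h : Her n) (y : V n) : V n →L[ℝ] V n →L[ℝ] V n :=
  LinearMap.toContinuousBilinearMap <| LinearMap.mk₂ ℝ
    (fun u a => fun k => ∑ i, a i * ∑ j, u j * Gm h false y (Pi.single i 1) (Pi.single j 1) k)
    (fun u v a => by funext k; simp [add_mul, mul_add, Finset.sum_add_distrib])
    (fun c u a => by funext k; simp [Finset.mul_sum, mul_left_comm, mul_assoc])
    (fun u a b => by funext k; simp [add_mul, Finset.sum_add_distrib])
    (fun c u a => by funext k; simp [Finset.mul_sum, mul_assoc])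

theorem lin_co {G : V n → V n} (hG : IsLinearMap ℂ G) (m : Fin n) :
    IsLinearMap ℂ fun u => G u m :=
  ⟨fun u v => by rw [hG.1]; rfl, fun c u => by rw [hG.2]; rfl⟩

theorem Gb_apply (H : Good U h) (hy : y ∈ U) (u a : V n) : Gb h y u a = Gm h false y a u := by
  funext k
  rw [lin_expand (lin_co (Gm_lin1 h false y u) k) a]
  change ∑ i, a i * ∑ j, u j * Gm h false y (Pi.single i 1) (Pi.single j 1) k = _
  refine Finset.sum_congr rfl fun i _ => ?_
  rw [lin_expand (lin_co (H.Gm_lin2 hy false _) k) u]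

theorem Gb_smooth (H : Good U h) : ContDiffOn ℝ ∞ (Gb h) U := by
  refine contDiffOn_clm_apply.2 fun u => contDiffOn_clm_apply.2 fun a => contDiffOn_pi.2 fun k => ?_
  exact (H.Gm_sm false a u k).congr fun z hz => by rw [Gb_apply H hz]

theorem fd_wv (f : V n → ℂ) (y a : V n) :
    fderiv ℝ f y a = wv false a f y + wv true (star a) f y := by
  simp only [wv_eq, cb, sg, cond_true, cond_false, star_star]; ring

theorem fd_dv {f : V n → V n} (hf : DifferentiableAt ℝ f y) (a : V n) :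
    fderiv ℝ f y a = dv false a f y + dv true (star a) f y := by
  funext k
  simp only [dv, Pi.add_apply, ← fd_wv]
  rw [fderiv_apply hf k]; rfl

theorem fd_Gb (H : Good U h) (hy : y ∈ U) (x u a : V n) :
    fderiv ℝ (Gb h) y x u a
      = dv false x (fun z => Gm h false z a u) y + Kv h false y a u (star x) := by
  have hd := ((Gb_smooth H).contDiffAt (H.isOpen.mem_nhds hy)).differentiableAt (by simp)
  have h1 : HasFDerivAt (fun z => Gb h z u a) _ y :=
    (hd.hasFDerivAt.clm_apply (hasFDerivAt_const u y)).clm_apply (hasFDerivAt_const a y)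
  have h2 : (fun z => Gm h false z a u) =ᶠ[𝓝 y] fun z => Gb h z u a := by
    filter_upwards [H.isOpen.mem_nhds hy] with z hz using (Gb_apply H hz u a).symm
  have h3 := h1.congr_of_eventuallyEq h2
  have h4 := fd_dv h3.differentiableAt x
  rw [h3.fderiv] at h4
  simpa [Kv] using h4

theorem curv_Gb (H : Good U h) (hy : y ∈ U) (a b c : V n) :
    (fderiv ℝ (Gb h) y a c b + Gb h y (Gb h y c b) a)
        - (fderiv ℝ (Gb h) y b c a + Gb h y (Gb h y c a) b)
      = Kv h false y b c (star a) - Kv h false y a c (star b) := by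
  have := H.flat hy false a b c
  simp only [fd_Gb H hy, Gb_apply H hy]
  linear_combination this

/-- the metric is parallel -/
theorem fd_gm (H : Good U h) (hy : y ∈ U) (a u v : V n) :
    fderiv ℝ (fun z => gm h false z u (star v)) y a
      = gm h false y (Gb h y u a) (star v) + gm h false y u (star (Gb h y v a)) := by
  have := H.Gm_conj (b := false) (a := a) (u := v) hy
  rw [fd_wv, Gb_apply H hy, Gb_apply H hy, H.gm_G hy, ← this, H.gm_G' hy]
  rfl

/-- change of chart -/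
theorem Gb_chg {φ : V n → V n} (C : Chg U U' φ h h') (hy : y ∈ U) (u a : V n) :
    fderiv ℝ φ y (Gb h y u a)
      = Gb h' (φ y) (fderiv ℝ φ y u) (fderiv ℝ φ y a) + fderiv ℝ (fderiv ℝ φ) y a u := by
  have e : ∀ z ∈ U, ∀ v, fderiv ℝ φ z v = Jc φ false z v := fun z hz v => by
    rw [(C.dAt hz).fderiv_restrictScalars ℝ]; rfl
  have hs : ContDiffAt ℝ ∞ φ y :=
    (C.hol.restrict_scalars ℝ).contDiffAt (C.good.isOpen.mem_nhds hy)
  have hd := (hs.fderiv_right (m := ∞) (by simp)).differentiableAt (by simp)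
  have h1 : HasFDerivAt (fun z => fderiv ℝ φ z u) _ y :=
    hd.hasFDerivAt.clm_apply (hasFDerivAt_const u y)
  have h2 : (fun z => Jc φ false z u) =ᶠ[𝓝 y] fun z => fderiv ℝ φ z u := by
    filter_upwards [C.good.isOpen.mem_nhds hy] with z hz using (e z hz u).symm
  have h3 := h1.congr_of_eventuallyEq h2
  have h4 := fd_dv h3.differentiableAt a
  have h5 : dv true (star a) (fun z => Jc φ false z u) y = 0 := C.dJ_bar hy (by simp) _ _
  rw [h3.fderiv, h5, add_zero] at h4
  rw [Gb_apply C.good hy, Gb_apply C.good' (C.maps y hy), e y hy, e y hy, e y hy, C.Gm_eq hy, ← h4]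
  simp

end Pool.Agent.Lib.HSC35
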