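import Pool.Agent.Lib.HSC35.Cov

/-! From the coordinate formula to the curvature of the Chern connection. -/

noncomputable section

namespace Pool.Agent.Lib.HSC35

open scoped Manifold ContDiff Topology ComplexConjugate
open Set Filter Bundle Complex Pool.Agent.Lib.MP_40b2af_gt

variable {n : ℕ} {M : Type} [TopologicalSpace M] [ChartedSpace (V n) M]
  [IsManifold 𝓘(ℝ, V n) ∞ M] [IsManifold 𝓘(ℂ, V n) ω M] {g : RMetric (V n) M}

theorem herm (hg : IsHermitian g) (x : M) (u v : TangentSpace 𝓘(ℝ, V n) x) :
    g.inner x (J u) (J v) = g.inner x u v :=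
  (gB_self g x (I • (show V n from u)) (I • (show V n from v))).symm.trans
    ((hg.gB (mem_chart_target _ x) u v).trans (gB_self g x u v))

theorem SmoothAt.pick {U : Field (V n) M} {x : M} (h : SmoothAt U x) (b : Bool) :
    SmoothAt (pick U b) x := by
  cases b
  · exact h
  · exact h.J

theorem r4 (hg : IsHermitian g) {X Y Z : Field (V n) M} {x : M} (hX : SmoothAt X x)
    (hY : SmoothAt Y x) (hZ : SmoothAt Z x) (w : V n) :
    g.inner x (curv (cov g) X Y Z x) w
      = 2 * (Rm (coef g x) (chartAt (V n) x x) (X x) (Z x) (star (show V n from Y x)) (star w)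
        - Rm (coef g x) (chartAt (V n) x x) (Y x) (Z x) (star (show V n from X x)) (star w)).re := by
  change gI g x (curv (cov g) X Y Z x) w = _
  rw [curv_eq hg hX hY hZ, ← gB_self, gB_re hg (mem_chart_target _ x),
    (gm_lin1 _ _ _ _).map_sub, Rm, Rm]
  congr 2
  ring

theorem Rm_smul (hg : IsHermitian g) (x : M) (a b c d : ℂ) (u : V n) :
    Rm (coef g x) (chartAt (V n) x x) (a • u) (c • u) (star (b • u)) (star (d • u))
      = a * c * conj b * conj d * Rm (coef g x) (chartAt (V n) x x) u u (star u) (star u) := by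
  have hc := mem_chart_target (V n) x
  rw [((hg.good x).Rm_lin1 hc _ _ _).2, ((hg.good x).Rm_lin2 hc _ _ _).2, star_smul, star_smul,
    (Rm_lin3 _ _ _ _ _).2, (Rm_lin4 _ _ _ _ _).2]
  simp only [smul_eq_mul, star_def]; ring

theorem const (hg : IsHermitian g) {c : ℝ} (hc : ConstChernHSC g c) : ConstHSC g (cov g) c := by
  intro U x hU
  have hm := mem_chart_target (V n) x
  obtain ⟨u, hu⟩ : ∃ u : V n, u = U x := ⟨_, rfl⟩
  have h1 : gm (coef g x) false (chartAt (V n) x x) u (star u) = (gI g x u u : ℝ) / 2 := by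
    have h2 := hg.skew hm u u
    rw [gc_eq] at h2
    have h3 : gB g x (chartAt (V n) x x) u (I • u) = 0 := by linarith
    rw [hg.gm hm, star_star, hF, h3, gB_self]; simp
  have h2 : Rm (coef g x) (chartAt (V n) x x) u u (star u) (star u)
      = ((c * (gI g x u u) ^ 2 / 4 : ℝ) : ℂ) := by
    have h3 : ∑ i, ∑ j, coef g x (chartAt (V n) x x) i j * u i * conj (u j)
        = gm (coef g x) false (chartAt (V n) x x) u (star u) := by
      simp only [gm, MP_40b2af_gt.hm, cond_false, Pi.star_apply, star_def]
      exact Finset.sum_congr rfl fun _ _ => Finset.sum_congr rfl fun _ _ => by ring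
    rw [(hg.good x).Rm_sum hm]
    refine (hc x u).trans ?_
    rw [h3, h1]; push_cast; ring
  have h3 : ∀ b, (show V n from pick U b x) = (bif b then I else 1) • u := fun b => by
    cases b
    · simp [pick, hu]
    · rw [hu]; rfl
  have h4 : ∀ a b d e, g.inner x (curv (cov g) (pick U a) (pick U b) (pick U d) x) (pick U e x)
      = 2 * (((bif a then I else 1) * (bif d then I else 1) * conj (bif b then I else 1)
          * conj (bif e then I else 1) - (bif b then I else 1) * (bif d then I else 1)
          * conj (bif a then I else 1) * conj (bif e then I else 1))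
          * ((c * (gI g x u u) ^ 2 / 4 : ℝ) : ℂ)).re := fun a b d e => by
    refine (r4 hg (hU.pick a) (hU.pick b) (hU.pick d) (pick U e x)).trans ?_
    rw [sub_mul, ← h2, ← Rm_smul hg, ← Rm_smul hg, ← h3, ← h3, ← h3, ← h3]
  have h5 : g.inner x (U x) (U x) = gI g x u u := by rw [hu]; rfl
  simp only [hol, h4, h5]
  generalize hρ : c * (gI g x u u) ^ 2 / 4 = ρ
  have h6 : (c : ℂ) * ((2 * gI g x u u : ℝ) : ℂ) ^ 2 = 16 * ρ := by
    rw [← hρ]; push_cast; ring
  rw [h6]
  simp [Complex.ext_iff]
  ring

theorem flat (hg : IsHermitian g) (h : Flat (cov g)) : ChernFlat g := by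
  intro x i j k l
  have hm := mem_chart_target (V n) x
  have h1 : ∀ a b c : V n, Kv (coef g x) false (chartAt (V n) x x) b c (star a)
      = Kv (coef g x) false (chartAt (V n) x x) a c (star b) := fun a b c => by
    obtain ⟨X, hX, e1⟩ := exists_field (n := n) x a
    obtain ⟨Y, hY, e2⟩ := exists_field (n := n) x b
    obtain ⟨Z, hZ, e3⟩ := exists_field (n := n) x c
    have := (curv_eq hg hX hY hZ).symm.trans (h X Y Z x hX hY hZ)
    rw [e1, e2, e3] at this
    exact sub_eq_zero.1 this
  have h2 : ∀ a b c : V n, Kv (coef g x) false (chartAt (V n) x x) b c (star a) = 0 := by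
    intro a b c
    have h3 := h1 (I • a) b c
    rw [star_smul, (Kv_lin3 _ _ _ _ _).2, ((hg.good x).Kv_lin1 hm _ _ _).2, ← h1 a b c] at h3
    funext m
    have h4 := congrFun h3 m
    simp only [Pi.smul_apply, smul_eq_mul, star_def, conj_I] at h4
    rw [Pi.zero_apply]
    linear_combination (I / 2) * h4 + Kv (coef g x) false (chartAt (V n) x x) b c (star a) m
      * I_mul_I
  have h3 := h2 (Pi.single j 1) (Pi.single i 1) (Pi.single k 1)
  rw [Pi.star_single, star_one] at h3
  rw [← (hg.good x).Rm_single hm, Rm, h3, (gm_lin1 _ _ _ _).map_zero, neg_zero]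

end Pool.Agent.Lib.HSC35
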