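import Pool.Agent.Lib.HSC35.Loc

/-! Vector fields read in a chart. -/

noncomputable section

namespace Pool.Agent.Lib.HSC35

open scoped Manifold ContDiff Topology
open Set Filter Bundle Pool.Agent.Lib.MP_40b2af_gt

variable {E : Type} [NormedAddCommGroup E] [NormedSpace ℝ E]
  {M : Type} [TopologicalSpace M] [ChartedSpace E M] [IsManifold 𝓘(ℝ, E) ∞ M]

/-- the field `X` in the chart at `p` -/
def rep (p : M) (X : M → E) (z : E) : E :=
  (trivializationAt E (TangentSpace 𝓘(ℝ, E)) p
    ⟨(chartAt E p).symm z, X ((chartAt E p).symm z)⟩).2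

theorem push_self (x : M) (u : E) : pushL x (chartAt E x x) u = u := by
  have := mfderivWithin_range_extChartAt_symm (I := 𝓘(ℝ, E)) (x := x)
  simp only [modelWithCornersSelf_coe, Set.range_id, mfderivWithin_univ] at this
  exact congrArg (fun L : E →L[ℝ] E => L u) this

theorem push_rep {p : M} (X : M → E) {z : E} (hz : z ∈ (chartAt E p).target) :
    pushL p z (rep p X z) = X ((chartAt E p).symm z) := by
  have hx := (chartAt E p).map_target hz
  have h1 := symmL_eq hx (rep p X z)
  rw [(chartAt E p).right_inv hz] at h1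
  rw [← h1]
  exact (trivializationAt E (TangentSpace 𝓘(ℝ, E)) p).symm_apply_apply_mk (by simpa using hx) _

theorem rep_eq {p : M} {X : M → E} {z u : E} (hz : z ∈ (chartAt E p).target)
    (h : pushL p z u = X ((chartAt E p).symm z)) : rep p X z = u :=
  pushL_injective hz ((push_rep X hz).trans h.symm)

theorem rep_self (x : M) (X : M → E) : rep x X (chartAt E x x) = X x :=
  rep_eq (mem_chart_target E x) (by
    rw [push_self, (chartAt E x).left_inv (mem_chart_source E x)])

theorem rep_trans {x p : M} (X : M → E) {z : E} (hz : z ∈ transDom E x p) :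
    rep p X (trans E x p z) = fderiv ℝ (trans E x p) z (rep x X z) :=
  rep_eq ((chartAt E p).map_source hz.2) (by
    rw [← pushL_trans hz, push_rep X hz.1, MP_40b2af_gt.trans, (chartAt E p).left_inv hz.2])

theorem rep_at {y p : M} (X : M → E) (hy : y ∈ (chartAt E p).source) :
    rep p X (chartAt E p y) = fderiv ℝ (trans E y p) (chartAt E y y) (X y) := by
  rw [← trans_chart p y, rep_trans X (mem_transDom hy), rep_self]

theorem mdiff_iff {p y : M} (X : M → E) (hy : y ∈ (chartAt E p).source) :
    MDifferentiableAt 𝓘(ℝ, E) (𝓘(ℝ, E)).tangent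
      (fun y => (⟨y, X y⟩ : TangentBundle 𝓘(ℝ, E) M)) y
      ↔ DifferentiableAt ℝ (rep p X) (chartAt E p y) := by
  have h1 := (trivializationAt E (TangentSpace 𝓘(ℝ, E)) p).mdifferentiableAt_section_iff
    𝓘(ℝ, E) X (b₀ := y) (by simpa using hy)
  refine h1.trans ?_
  rw [mdifferentiableAt_iff_source_of_mem_source hy]
  simp only [modelWithCornersSelf_coe, Set.range_id, mdifferentiableWithinAt_univ,
    mdifferentiableAt_iff_differentiableAt]
  rfl

theorem smooth_iff (x : M) (X : M → E) :
    ContMDiffAt 𝓘(ℝ, E) (𝓘(ℝ, E)).tangent ∞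
      (fun y => (⟨y, X y⟩ : TangentBundle 𝓘(ℝ, E) M)) x
      ↔ ContDiffAt ℝ ∞ (rep x X) (chartAt E x x) := by
  have h1 := contMDiffAt_section (IB := 𝓘(ℝ, E)) (F := E) (n := ∞)
    (E := (TangentSpace 𝓘(ℝ, E) : M → Type)) (s := X) x
  refine h1.trans ?_
  rw [contMDiffAt_iff_source]
  simp only [modelWithCornersSelf_coe, Set.range_id, contMDiffWithinAt_univ,
    contMDiffAt_iff_contDiffAt]
  rfl

theorem nhds_target (x : M) : (chartAt E x).target ∈ 𝓝 (chartAt E x x) :=
  (chartAt E x).open_target.mem_nhds (mem_chart_target E x)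

theorem fun_diff {F : Type} [NormedAddCommGroup F] [NormedSpace ℝ F] {f : M → F} {x : M} :
    MDifferentiableAt 𝓘(ℝ, E) 𝓘(ℝ, F) f x
      ↔ DifferentiableAt ℝ (fun z => f ((chartAt E x).symm z)) (chartAt E x x) := by
  rw [mdifferentiableAt_iff_source_of_mem_source (mem_chart_source E x)]
  simp only [modelWithCornersSelf_coe, Set.range_id, mdifferentiableWithinAt_univ,
    mdifferentiableAt_iff_differentiableAt]
  rfl

theorem mvf_eq {F : Type} [NormedAddCommGroup F] [NormedSpace ℝ F] {f : M → F} {x : M}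
    (hf : MDifferentiableAt 𝓘(ℝ, E) 𝓘(ℝ, F) f x) (u : E) :
    mvfderiv 𝓘(ℝ, E) f x u = fderiv ℝ (fun z => f ((chartAt E x).symm z)) (chartAt E x x) u := by
  have h1 := hf.mfderiv
  simp only [modelWithCornersSelf_coe, Set.range_id, fderivWithin_univ] at h1
  exact congrArg (fun L : E →L[ℝ] F => L u) h1

theorem bracket_eq [CompleteSpace E] (X Y : M → E) (x : M) :
    VectorField.mlieBracket 𝓘(ℝ, E) X Y x
      = fderiv ℝ (rep x Y) (chartAt E x x) (X x) - fderiv ℝ (rep x X) (chartAt E x x) (Y x) := by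
  have key : ∀ X : M → E, VectorField.mpullbackWithin 𝓘(ℝ, E) 𝓘(ℝ, E) (extChartAt 𝓘(ℝ, E) x).symm X
      (range 𝓘(ℝ, E)) =ᶠ[𝓝 (chartAt E x x)] rep x X := fun X => by
    filter_upwards [nhds_target x] with z hz
    have hi := isInvertible_mfderivWithin_extChartAt_symm (I := 𝓘(ℝ, E)) (x := x) (y := z)
      (by simpa using hz)
    rw [VectorField.mpullbackWithin_apply]
    simp only [modelWithCornersSelf_coe, Set.range_id, mfderivWithin_univ] at hi ⊢
    have hi' : (pushL x z).IsInvertible := hi
    change (pushL x z).inverse (X ((chartAt E x).symm z)) = _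
    rw [← push_rep X hz, hi'.inverse_apply_self]
  rw [← VectorField.mlieBracketWithin_univ, VectorField.mlieBracketWithin_apply,
    mfderiv_extChartAt_self]
  have h1 := key X
  have h2 := key Y
  simp only [modelWithCornersSelf_coe, Set.range_id, preimage_univ, inter_self,
    VectorField.lieBracketWithin_univ] at h1 h2 ⊢
  have h3 : VectorField.lieBracket ℝ
      (VectorField.mpullbackWithin 𝓘(ℝ, E) 𝓘(ℝ, E) (extChartAt 𝓘(ℝ, E) x).symm X univ)
      (VectorField.mpullbackWithin 𝓘(ℝ, E) 𝓘(ℝ, E) (extChartAt 𝓘(ℝ, E) x).symm Y univ)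
      (chartAt E x x) = VectorField.lieBracket ℝ (rep x X) (rep x Y) (chartAt E x x) :=
    h1.lieBracket_vectorField_eq h2
  rw [VectorField.lieBracket_eq, VectorField.lieBracket_eq] at h3
  simp only [rep_self] at h3
  refine Eq.trans ?_ h3
  exact congrArg (fun L : E →L[ℝ] E => L _) ContinuousLinearMap.inverse_id

end Pool.Agent.Lib.HSC35
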