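import Pool.Agent.Lib.HSC35.Main

/-! Uniqueness of the Chern connection. -/

noncomputable section

namespace Pool.Agent.Lib.HSC35

open scoped Manifold ContDiff Topology
open Set Filter Bundle Complex Pool.Agent.Lib.MP_40b2af_gt

variable {n : ℕ}

theorem alg_zero (G : V n →L[ℝ] V n →L[ℝ] ℝ) (A : V n →L[ℝ] V n →L[ℝ] V n)
    (pos : ∀ u, u ≠ 0 → 0 < G u u) (hG : ∀ u v, G (I • u) (I • v) = G u v)
    (h1 : ∀ u v a, G (A u a) v + G u (A v a) = 0) (h2 : ∀ u a, A (I • u) a = I • A u a)
    (h3 : ∀ u v, A (I • v) (I • u) - A (I • u) (I • v) = -(A v u - A u v)) : A = 0 := by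
  have ii : ∀ u : V n, I • I • u = -u := fun u => by rw [smul_smul, I_mul_I, neg_one_smul]
  have c1 : ∀ u v, A v u + I • A v (I • u) = A u v + I • A u (I • v) := fun u v => by
    have := h3 u v
    rw [h2, h2] at this
    linear_combination this
  have c2 : ∀ u v, A v (I • u) = I • A v u := fun u v => by
    have e1 := c1 u (I • v)
    have e2 := congrArg (fun w : V n => I • w) (c1 u v)
    simp only [h2, ii, map_neg, smul_add, smul_neg] at e1 e2
    have e3 : (2 : ℂ) • (I • A v u - A v (I • u)) = 0 := by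
      rw [two_smul]; linear_combination e1 + e2
    exact (sub_eq_zero.1 ((smul_eq_zero.1 e3).resolve_left two_ne_zero)).symm
  have c3 : ∀ u v, G u (I • v) = -G (I • u) v := fun u v => by
    rw [← hG, ii, map_neg]
  ext1 u
  ext1 a
  by_contra h0
  have e1 := h1 u (I • A u a) (I • a)
  have e2 := h1 (I • u) (I • A u a) a
  have e3 := pos _ h0
  rw [c2, c2, c3 u, hG] at e1
  rw [h2, hG] at e2
  linarith

variable {M : Type} [TopologicalSpace M] [ChartedSpace (V n) M]
  [IsManifold 𝓘(ℝ, V n) ∞ M] [IsManifold 𝓘(ℂ, V n) ω M] {g : RMetric (V n) M} {D D' : Conn (V n) M}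

omit [IsManifold 𝓘(ℂ, V n) ω M] in
theorem SmoothAt.md {X : Field (V n) M} {x : M} (h : SmoothAt X x) :
    MDifferentiableAt 𝓘(ℝ, V n) (𝓘(ℝ, V n)).tangent
      (fun y => (⟨y, X y⟩ : TangentBundle 𝓘(ℝ, V n) M)) x := h.mdifferentiableAt (by simp)

theorem uniq (hg : IsHermitian g) (h : IsChern g D) (h' : IsChern g D') {X : Field (V n) M} {x : M}
    (hX : MDifferentiableAt 𝓘(ℝ, V n) (𝓘(ℝ, V n)).tangent
      (fun y => (⟨y, X y⟩ : TangentBundle 𝓘(ℝ, V n) M)) x) : D X x = D' X x := by
  obtain ⟨A, hA⟩ : ∃ A : V n →L[ℝ] V n →L[ℝ] V n, ∀ Y : Field (V n) M,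
      MDifferentiableAt 𝓘(ℝ, V n) (𝓘(ℝ, V n)).tangent
        (fun y => (⟨y, Y y⟩ : TangentBundle 𝓘(ℝ, V n) M)) x → A (Y x) = D Y x - D' Y x :=
    ⟨D.difference D' x, fun Y hY => D.isCovariantDerivativeOnUniv.difference_apply
      D'.isCovariantDerivativeOnUniv (mem_univ x) hY⟩
  have hA' : ∀ Y Z : Field (V n) M, SmoothAt Y x →
      A (Y x) (Z x) = (show V n from nabla D Z Y x) - (show V n from nabla D' Z Y x) :=
    fun Y Z hY => by rw [hA Y hY.md]; rfl
  have h0 : A = 0 := by
    refine alg_zero (gI g x) A (g.pos x) (herm hg x) (fun u v a => ?_) (fun u a => ?_)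
      (fun u v => ?_)
    · obtain ⟨Y, hY, rfl⟩ := exists_field (n := n) x u
      obtain ⟨Z, hZ, rfl⟩ := exists_field (n := n) x v
      obtain ⟨W, -, rfl⟩ := exists_field (n := n) x a
      have e : gI g x (nabla D W Y x) (Z x) + gI g x (Y x) (nabla D W Z x)
          = gI g x (nabla D' W Y x) (Z x) + gI g x (Y x) (nabla D' W Z x) :=
        (h.metric W Y Z x hY hZ).symm.trans (h'.metric W Y Z x hY hZ)
      rw [hA' Y W hY, hA' Z W hZ, map_sub, map_sub, sub_apply]
      linarith
    · obtain ⟨Y, hY, rfl⟩ := exists_field (n := n) x u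
      obtain ⟨W, -, rfl⟩ := exists_field (n := n) x a
      have e := hA' _ W hY.J
      rw [h.complex W Y x hY, h'.complex W Y x hY] at e
      rw [hA' Y W hY, smul_sub]
      exact e
    · have t : ∀ u v : V n, A v u - A u v
          = (show V n from D.torsion x u v) - (show V n from D'.torsion x u v) := fun u v => by
        obtain ⟨Y, hY, rfl⟩ := exists_field (n := n) x u
        obtain ⟨Z, hZ, rfl⟩ := exists_field (n := n) x v
        rw [hA' Y Z hY, hA' Z Y hZ, D.torsion_apply hY.md hZ.md, D'.torsion_apply hY.md hZ.md]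
        change _ = (show V n from nabla D Y Z x) - (show V n from nabla D Z Y x)
          - (show V n from VectorField.mlieBracket 𝓘(ℝ, V n) Y Z x)
          - ((show V n from nabla D' Y Z x) - (show V n from nabla D' Z Y x)
            - (show V n from VectorField.mlieBracket 𝓘(ℝ, V n) Y Z x))
        abel
      have e1 : (show V n from D.torsion x (I • u : V n) (I • v : V n))
        = -(show V n from D.torsion x u v) := h.torsion x u v
      have e2 : (show V n from D'.torsion x (I • u : V n) (I • v : V n))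
        = -(show V n from D'.torsion x u v) := h'.torsion x u v
      rw [t, t, e1, e2]
      abel
  have := hA X hX
  rw [h0] at this
  exact sub_eq_zero.1 this.symm

theorem nabla_nabla (hg : IsHermitian g) (h : IsChern g D) (h' : IsChern g D')
    (X : Field (V n) M) {Y Z : Field (V n) M} {x : M} (hY : SmoothAt Y x) (hZ : SmoothAt Z x) :
    nabla D X (nabla D Y Z) x = nabla D' X (nabla D' Y Z) x := by
  have h1 : ∀ᶠ y in 𝓝 x, nabla D Y Z y = nabla D' Y Z y := by
    filter_upwards [(contMDiffAt_iff_contMDiffAt_nhds (n := 1) (by simp)).1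
      (ContMDiffAt.of_le hZ (by simp))] with y hy
    simp only [nabla, uniq hg h h' (hy.mdifferentiableAt one_ne_zero)]
  have h2 := D.isCovariantDerivativeOnUniv.congr_of_eventuallyEq (h.smooth Y Z x hY hZ).md
    (h'.smooth Y Z x hY hZ).md univ_mem h1
  rw [nabla, h2, uniq hg h h' (h'.smooth Y Z x hY hZ).md, nabla]

theorem curv_uniq (hg : IsHermitian g) (h : IsChern g D) (h' : IsChern g D')
    {X Y Z : Field (V n) M} {x : M} (hX : SmoothAt X x) (hY : SmoothAt Y x) (hZ : SmoothAt Z x) :
    curv D X Y Z x = curv D' X Y Z x := by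
  rw [curv, curv, nabla_nabla hg h h' X hY hZ, nabla_nabla hg h h' Y hX hZ]
  simp only [nabla, uniq hg h h' hZ.md]

theorem const' (hg : IsHermitian g) (h : IsChern g D) {c : ℝ} (hc : ConstChernHSC g c) :
    ConstHSC g D c := fun U x hU => by
  rw [← const hg hc U x hU]
  simp only [hol, fun a b d => curv_uniq hg h (isChern hg) (hU.pick a) (hU.pick b) (hU.pick d)]

theorem flat' (hg : IsHermitian g) (h : IsChern g D) (hf : Flat D) : ChernFlat g :=
  flat hg fun X Y Z x hX hY hZ =>
    (curv_uniq hg h (isChern hg) hX hY hZ).symm.trans (hf X Y Z x hX hY hZ)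

end Pool.Agent.Lib.HSC35
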